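import Pool.Agent.H12.PK.Key

/-! # Deterministic part: counting the removals -/

set_option autoImplicit false
set_option linter.unusedSectionVars false

noncomputable section

namespace Pool.Agent.H12.PK

open W841.PK Finset
open W305.PK (NN_succ_pl SS_succ SS_succ_non rr_end cc_nonpos exists_rr)
open scoped Classical symmDiff

/-- peeling `H` by the rule `ρ`, the first clique reached contains at least `c` vertices of `S` -/
def SuccN {n : ℕ} (ρ : Rule n) (H : SimpleGraph (Fin n)) (S : Finset (Fin n)) (c : ℝ) : Prop :=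
  ∃ t, IsCl H (Rs ρ H t) ∧ (∀ i < t, ¬ IsCl H (Rs ρ H i)) ∧ c ≤ ((Rs ρ H t ∩ S).card : ℝ)

section

variable {n : ℕ} (S : Finset (Fin n)) (ρ : Rule n) (G : SimpleGraph (Fin n))

/-- the conclusion once enough planted vertices remain -/
theorem claim3' (hρ : IsRule ρ) (hb : S_Basic) {t1 : ℕ} {c : ℝ} (ht1 : 1 ≤ rr S ρ t1 G)
    (h : ∀ t, t1 ≤ t → (∀ i < t, 1 ≤ rr S ρ i G) → c ≤ (ss S ρ t G : ℝ)) :
    SuccN ρ (plant G S) S c := by
  obtain ⟨T0, hT0, hT0'⟩ := exists_rr S ρ G hb hρ (Nat.zero_le _)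
  have h1 : t1 ≤ T0 := by
    by_contra hlt
    have := W305.PK.rr_anti S ρ G (le_of_lt (not_le.1 hlt))
    omega
  have h2 := h T0 h1 (fun i hi => hT0' i hi)
  have h3 : RR S ρ T0 G = SS S ρ T0 G := by
    have h4 : NN S ρ T0 G = ∅ := Finset.card_eq_zero.1 hT0
    rw [← SS_union_NN, h4, Finset.union_empty]
  have hcl : IsCl (plant G S) (Rs ρ (plant G S) T0) := by
    intro a ha b hb' hab
    have ha' : a ∈ RR S ρ T0 G := ha
    have hb'' : b ∈ RR S ρ T0 G := hb'
    rw [h3] at ha' hb''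
    exact ⟨hab, Or.inr ⟨(mem_inter.1 ha').2, (mem_inter.1 hb'').2⟩⟩
  have hex : ∃ t, IsCl (plant G S) (Rs ρ (plant G S) t) := ⟨T0, hcl⟩
  refine ⟨Nat.find hex, Nat.find_spec hex, fun i hi => Nat.find_min hex hi, h2.trans ?_⟩
  have h5 : Nat.find hex ≤ T0 := Nat.find_min' hex hcl
  have h6 := card_le_card (W305.PK.SS_anti S ρ G h5)
  exact_mod_cast h6

/-- late removals of tracked planted vertices with a very small degree -/
def cset (r1 r2 : ℕ) : Finset ℕ :=
  (range n).filter (fun t => ww S ρ t G ∈ S ∧ r2 ≤ rr S ρ t G ∧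
      rr S ρ t G ≤ r1 ∧
      √(n : ℝ) / (rr S ρ t G : ℝ) * Xn S ρ t G (ww S ρ t G) ≤
        -(1 / 5) * n / ((rr S ρ t G : ℝ) - 1) ∧
      ww S ρ t G ∈ Tr S ρ t G r1)

/-- removals down to `r2` -/
theorem claim1' (hρ : IsRule ρ) (hb : S_Basic) {r1 r2 t1 : ℕ} (ht1 : rr S ρ t1 G = r1)
    (hr2 : 1 ≤ r2) (hr1 : 1 ≤ r1) {q : ℝ}
    (hU0c : 0.549 * q ≤ ((Tr S ρ t1 G r1).card : ℝ))
    (hcnt : ((cset S ρ G r1 r2).card : ℝ) < 0.015 * q)
    (hq : 0 ≤ q)
    (hkill : ∀ t < n, ww S ρ t G ∈ S → r2 ≤ rr S ρ t G → rr S ρ t G ≤ r1 →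
      0.53 * q ≤ (ss S ρ t G : ℝ) →
      √(n : ℝ) / (rr S ρ t G : ℝ) * Xn S ρ t G (ww S ρ t G) ≤
        -(1 / 5) * n / ((rr S ρ t G : ℝ) - 1)) :
    ∀ t, t1 ≤ t → r2 ≤ rr S ρ t G →
      (Tr S ρ t1 G r1).card ≤ (Tr S ρ t1 G r1 ∩ SS S ρ t G).card +
        ((cset S ρ G r1 r2).filter (fun i => i < t)).card := by
  intro t ht
  induction t, ht using Nat.le_induction with
  | base =>
    intro _
    have hsubs : Tr S ρ t1 G r1 ⊆ SS S ρ t1 G := filter_subset _ _
    rw [Finset.inter_eq_left.2 hsubs]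
    omega
  | succ t ht ih =>
    intro hr
    have hrt : r2 ≤ rr S ρ t G := hr.trans (W305.PK.rr_anti S ρ G (Nat.le_succ t))
    have hrt1 : rr S ρ t G ≤ r1 := by
      rw [← ht1]
      exact W305.PK.rr_anti S ρ G ht
    have htn : t < n := by
      by_contra h
      rw [rr_end S ρ t G hb hρ (by omega)] at hrt
      omega
    have ih' := ih hrt
    have hle : ((cset S ρ G r1 r2).filter (fun i => i < t)).card ≤
        ((cset S ρ G r1 r2).filter (fun i => i < t + 1)).card := by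
      apply card_le_card
      intro i hi
      rw [mem_filter] at hi ⊢
      exact ⟨hi.1, by omega⟩
    by_cases hw : ww S ρ t G ∈ Tr S ρ t1 G r1
    · have hwSS : ww S ρ t G ∈ SS S ρ t1 G := (mem_filter.1 hw).1
      have hwS : ww S ρ t G ∈ S := (mem_inter.1 hwSS).2
      have hss : 0.53 * q ≤ (ss S ρ t G : ℝ) := by
        have h1 : ((Tr S ρ t1 G r1).card : ℝ) ≤ ((Tr S ρ t1 G r1 ∩ SS S ρ t G).card : ℝ) +
            (((cset S ρ G r1 r2).filter (fun i => i < t)).card : ℝ) := by exact_mod_cast ih'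
        have h2 : (((cset S ρ G r1 r2).filter (fun i => i < t)).card : ℝ) ≤
            ((cset S ρ G r1 r2).card : ℝ) := by exact_mod_cast card_le_card (filter_subset _ _)
        have h3 : ((Tr S ρ t1 G r1 ∩ SS S ρ t G).card : ℝ) ≤ (ss S ρ t G : ℝ) := by
          exact_mod_cast card_le_card inter_subset_right
        linarith
      have hk := hkill t htn hwS hrt hrt1 hss
      have hmem : t ∈ cset S ρ G r1 r2 := by
        unfold cset
        rw [mem_filter]
        refine ⟨mem_range.2 htn, hwS, hrt, hrt1, hk, ?_⟩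
        unfold Tr
        rw [mem_filter]
        refine ⟨((hb n S ρ t G hρ).2.2.2.1 htn hwS).1, fun i hi hri => ?_⟩
        rcases le_total i t1 with h | h
        · exact (mem_filter.1 hw).2 i h hri
        · rw [zz_const hb hρ h (hri.trans ht1.symm) (by omega)]
          exact (mem_filter.1 hw).2 t1 le_rfl ht1
      have h4 : ((cset S ρ G r1 r2).filter (fun i => i < t)).card + 1 ≤
          ((cset S ρ G r1 r2).filter (fun i => i < t + 1)).card := by
        have hnot : t ∉ (cset S ρ G r1 r2).filter (fun i => i < t) := by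
          rw [mem_filter]
          rintro ⟨_, h⟩
          exact lt_irrefl _ h
        rw [← Finset.card_insert_of_notMem hnot]
        apply card_le_card
        intro i hi
        rw [mem_insert] at hi
        rcases hi with rfl | hi
        · exact mem_filter.2 ⟨hmem, Nat.lt_succ_self _⟩
        · rw [mem_filter] at hi ⊢
          exact ⟨hi.1, by omega⟩
      have h5 : (Tr S ρ t1 G r1 ∩ SS S ρ t G).card ≤
          (Tr S ρ t1 G r1 ∩ SS S ρ (t + 1) G).card + 1 := by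
        rw [SS_succ]
        have h6 : Tr S ρ t1 G r1 ∩ (SS S ρ t G).erase (ww S ρ t G) =
            (Tr S ρ t1 G r1 ∩ SS S ρ t G).erase (ww S ρ t G) := by
          ext a
          simp only [mem_inter, mem_erase]
          tauto
        rw [h6]
        have := Finset.pred_card_le_card_erase (s := Tr S ρ t1 G r1 ∩ SS S ρ t G)
          (a := ww S ρ t G)
        omega
      omega
    · have h5 : Tr S ρ t1 G r1 ∩ SS S ρ (t + 1) G = Tr S ρ t1 G r1 ∩ SS S ρ t G := by
        rw [SS_succ]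
        ext a
        simp only [mem_inter, mem_erase]
        constructor
        · rintro ⟨h1, -, h3⟩
          exact ⟨h1, h3⟩
        · rintro ⟨h1, h3⟩
          exact ⟨h1, fun h => hw (h ▸ h1), h3⟩
      rw [h5]
      omega

end

/-- the deterministic part -/
theorem det_part' (C : ℝ) (hC : 1 ≤ C) :
    ∃ n0 : ℕ, ∀ n ≥ n0, ∀ (S : Finset (Fin n)) (ρ : Rule n) (G : SimpleGraph (Fin n)),
      S.card = Nat.sqrt n → IsRule ρ → PRev C G → SEok G → HEok S G →
      (∀ t, rr S ρ t G = rv n 256 → 0.549 * √(n : ℝ) ≤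
        (((SS S ρ t G).filter (fun a => -32 ≤ zz S ρ t G a)).card : ℝ)) →
      ((cset S ρ G (rv n 256) ⌈(1 / 100 : ℝ) * √(n : ℝ)⌉₊).card : ℝ) < 0.015 * √(n : ℝ) →
      SuccN ρ (plant G S) S (53 / 100 * √(n : ℝ)) := by
  have hb := a_basic
  obtain ⟨n1, h1⟩ := W305.PK.killthr a_basic C hC
  obtain ⟨n2, h2⟩ := W305.PK.endkill a_basic
  refine ⟨max (max n1 n2) (10 ^ 8), fun n hn S ρ G hS hρ hPR hSE hHE hE1 hE3 => ?_⟩
  have hn1 : n1 ≤ n := (le_max_left _ _).trans ((le_max_left _ _).trans hn)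
  have hn2 : n2 ≤ n := (le_max_right _ _).trans ((le_max_left _ _).trans hn)
  have hn8 : 10 ^ 8 ≤ n := (le_max_right _ _).trans hn
  have hn8' : (10 : ℝ) ^ 8 ≤ n := by exact_mod_cast hn8
  have hrv := W305.PK.rv256 (n := n) (by omega)
  set r1 := rv n 256 with hr1
  set q : ℝ := √(n : ℝ) with hq
  have hq4 : (10 : ℝ) ^ 4 ≤ q := by
    apply Real.le_sqrt_of_sq_le
    linarith
  have hr1le : (r1 : ℝ) ≤ (n : ℝ) / 256 := by
    rw [hrv]
    exact Nat.floor_le (by positivity)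
  have hr1ge : (n : ℝ) / 256 - 1 < r1 := by
    rw [hrv]
    have := Nat.lt_floor_add_one ((n : ℝ) / 256)
    linarith
  have hr1n : r1 ≤ n - S.card := by
    rw [hS, hr1]
    exact min_le_right _ _
  obtain ⟨t1, ht1, ht1'⟩ := exists_rr S ρ G hb hρ hr1n
  set r2 := ⌈(1 / 100 : ℝ) * q⌉₊ with hr2
  have hr2pos : 1 ≤ r2 := Nat.one_le_ceil_iff.2 (by linarith)
  have hr1pos : (0 : ℝ) < r1 := by linarith
  have hr1pos' : 1 ≤ r1 := by exact_mod_cast hr1pos
  have hkill : ∀ t < n, ww S ρ t G ∈ S → r2 ≤ rr S ρ t G → rr S ρ t G ≤ r1 →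
      0.53 * q ≤ (ss S ρ t G : ℝ) →
      q / (rr S ρ t G : ℝ) * Xn S ρ t G (ww S ρ t G) ≤
        -(1 / 5) * n / ((rr S ρ t G : ℝ) - 1) := by
    intro t ht hw ha hb' hs
    apply h1 n hn1 S ρ t G hS hρ hPR hSE ht hw
    · exact Nat.ceil_le.1 ha
    · have : (rr S ρ t G : ℝ) ≤ r1 := by exact_mod_cast hb'
      exact this.trans hr1le
    · linarith
  have hend : ∀ t < n, ww S ρ t G ∈ S → 1 ≤ rr S ρ t G → rr S ρ t G < r2 →
      (ss S ρ t G : ℝ) < 0.53 * q := by
    intro t ht hw ha hb'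
    have h3 : (rr S ρ t G : ℝ) ≤ 1 / 100 * q := (Nat.lt_ceil.1 hb').le
    have := h2 n hn2 S ρ t G hS hρ hHE ht hw ha h3
    linarith
  have hsub : (SS S ρ t1 G).filter (fun a => -32 ≤ zz S ρ t1 G a) ⊆ Tr S ρ t1 G r1 := by
    intro a ha
    unfold Tr
    rw [mem_filter] at ha ⊢
    refine ⟨ha.1, fun i hi hri => ?_⟩
    rcases Nat.lt_or_eq_of_le hi with h | h
    · have := ht1' i h
      omega
    · rw [h]
      exact ha.2
  have hU0c : 0.549 * q ≤ ((Tr S ρ t1 G r1).card : ℝ) := by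
    refine (hE1 t1 ht1).trans ?_
    exact_mod_cast card_le_card hsub
  have hc1 := claim1' S ρ G hρ hb ht1 hr2pos hr1pos' hU0c hE3 (by linarith) hkill
  have hc1' : ∀ t, t1 ≤ t → r2 ≤ rr S ρ t G → 0.534 * q ≤ (ss S ρ t G : ℝ) := by
    intro t ht hr
    have h3 := hc1 t ht hr
    have h4 : ((Tr S ρ t1 G r1).card : ℝ) ≤ ((Tr S ρ t1 G r1 ∩ SS S ρ t G).card : ℝ) +
        (((cset S ρ G r1 r2).filter (fun i => i < t)).card : ℝ) := by exact_mod_cast h3
    have h5 : (((cset S ρ G r1 r2).filter (fun i => i < t)).card : ℝ) ≤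
        ((cset S ρ G r1 r2).card : ℝ) := by exact_mod_cast card_le_card (filter_subset _ _)
    have h6 : ((Tr S ρ t1 G r1 ∩ SS S ρ t G).card : ℝ) ≤ (ss S ρ t G : ℝ) := by
      exact_mod_cast card_le_card inter_subset_right
    linarith
  have hss1 : 0.534 * q ≤ (ss S ρ t1 G : ℝ) := by
    have h6 : ((Tr S ρ t1 G r1).card : ℝ) ≤ (ss S ρ t1 G : ℝ) := by
      exact_mod_cast card_le_card (filter_subset _ _)
    linarith
  have hc2 := W305.PK.claim2 S ρ G hρ hb (by linarith) hss1 hc1' hend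
  refine claim3' S ρ G hρ hb (t1 := t1) ?_ fun t ht hr => ?_
  · rw [ht1]
    exact hr1pos'
  · have h3 := hc2 t ht hr
    linarith

section

variable {n : ℕ} {S : Finset (Fin n)} {ρ : Rule n} {G : SimpleGraph (Fin n)}

/-- the removals of one window -/
theorem cntA (hb : S_Basic) (hρ : IsRule ρ) {r0 rk r1 r2 : ℕ} {b c : ℝ} (hr2 : 2 ≤ r2)
    (hbk : b ≤ 1 / 5 * n / rk) (hc : 0 ≤ c)
    (hev : ∀ t, r0 ≤ rr S ρ t G → rr S ρ t G ≤ r1 →
      ∑ a ∈ Tr S ρ t G r1, psi n b r0 (rr S ρ t G) (zz S ρ t G a) +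
        Rem S ρ G r1 (psi n b r0) t ≤ c) :
    (((cset S ρ G r1 r2).filter (fun t => r0 ≤ rr S ρ t G ∧ rr S ρ t G ≤ rk)).card : ℝ) ≤
      2 * c := by
  obtain ⟨A, hA⟩ : ∃ A : Finset ℕ,
    A = (cset S ρ G r1 r2).filter (fun t => r0 ≤ rr S ρ t G ∧ rr S ρ t G ≤ rk) := ⟨_, rfl⟩
  rw [← hA]
  rcases A.eq_empty_or_nonempty with he | hne
  · rw [he]
    simp only [card_empty, Nat.cast_zero]
    linarith
  · obtain ⟨T, hT⟩ : ∃ T : ℕ, T = A.max' hne := ⟨_, rfl⟩
    have hTA : T ∈ A := by rw [hT]; exact A.max'_mem hne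
    have hTle : ∀ j ∈ A, j ≤ T := fun j hj => by rw [hT]; exact A.le_max' j hj
    have hprop : ∀ j ∈ A, j < n ∧ ww S ρ j G ∈ S ∧ rr S ρ j G ≤ r1 ∧ r0 ≤ rr S ρ j G ∧
        ww S ρ j G ∈ Tr S ρ j G r1 ∧ zz S ρ j G (ww S ρ j G) ≤ -b := by
      intro j hj
      rw [hA, mem_filter] at hj
      obtain ⟨hj1, hj2, hj3⟩ := hj
      unfold cset at hj1
      rw [mem_filter, mem_range] at hj1
      obtain ⟨k1, k2, k3, k4, k5, k6⟩ := hj1
      refine ⟨k1, k2, k4, hj2, k6, ?_⟩
      have hXs : Xs S ρ j G (ww S ρ j G) = Xn S ρ j G (ww S ρ j G) := by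
        unfold Xs
        rw [if_pos k2]
      have hcc := cc_nonpos S ρ j G hb hρ
      unfold zz
      rw [hXs]
      have hrr : (2 : ℝ) ≤ (rr S ρ j G : ℝ) := by exact_mod_cast hr2.trans k3
      have hrk : (rr S ρ j G : ℝ) ≤ (rk : ℝ) := by exact_mod_cast hj3
      have h6 : 1 / 5 * (n : ℝ) / rk ≤ 1 / 5 * n / ((rr S ρ j G : ℝ) - 1) :=
        div_le_div_of_nonneg_left (by positivity) (by linarith) (by linarith)
      have h7 : -(1 / 5) * (n : ℝ) / ((rr S ρ j G : ℝ) - 1) =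
          -(1 / 5 * n / ((rr S ρ j G : ℝ) - 1)) := by ring
      rw [h7] at k5
      linarith
    obtain ⟨p1, p2, p3, p4, p5, p6⟩ := hprop T hTA
    have hrT : rr S ρ (T + 1) G = rr S ρ T G := by
      unfold rr
      rw [NN_succ_pl S ρ T G p2]
    have h8 := hev (T + 1) (by omega) (by omega)
    have h9 : 0 ≤ ∑ a ∈ Tr S ρ (T + 1) G r1, psi n b r0 (rr S ρ (T + 1) G)
        (zz S ρ (T + 1) G a) := sum_nonneg fun a _ => psi_nonneg _ _ _ _ _
    have h10 : (A.card : ℝ) * (1 / 2) ≤ Rem S ρ G r1 (psi n b r0) (T + 1) := by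
      unfold Rem
      calc (A.card : ℝ) * (1 / 2) = ∑ _j ∈ A, (1 / 2 : ℝ) := by
            rw [sum_const, nsmul_eq_mul]
        _ ≤ ∑ j ∈ A, (if rr S ρ j G ≤ r1 ∧ ww S ρ j G ∈ Tr S ρ j G r1 then
            psi n b r0 (rr S ρ j G) (zz S ρ j G (ww S ρ j G)) else 0) := by
            refine sum_le_sum fun j hj => ?_
            obtain ⟨q1, q2, q3, q4, q5, q6⟩ := hprop j hj
            rw [if_pos ⟨q3, q5⟩]
            exact psi_half _ _ _ _ _ q6
        _ ≤ _ := by
            refine sum_le_sum_of_subset_of_nonneg ?_ fun j _ _ => ?_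
            · intro j hj
              rw [mem_range]
              have := hTle j hj
              omega
            · split_ifs
              · exact psi_nonneg _ _ _ _ _
              · exact le_rfl
    linarith

/-- the tracked vertices which are low when `r0` non-planted vertices are left -/
theorem cntD (hb : S_Basic) (hρ : IsRule ρ) {r0 r1 r2 : ℕ} {b c : ℝ} (hr0 : 1 ≤ r0)
    (hr01 : r0 ≤ r1) (hr0n : r0 ≤ n - S.card)
    (hev : ∀ t, r0 ≤ rr S ρ t G → rr S ρ t G ≤ r1 →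
      ∑ a ∈ Tr S ρ t G r1, psi n b r0 (rr S ρ t G) (zz S ρ t G a) +
        Rem S ρ G r1 (psi n b r0) t ≤ c) :
    (((cset S ρ G r1 r2).filter (fun t => rr S ρ t G ≤ r0 ∧
      ∃ j, rr S ρ j G = r0 ∧ zz S ρ j G (ww S ρ t G) < -b)).card : ℝ) ≤ 2 * c := by
  obtain ⟨s, hs, hs'⟩ := exists_rr S ρ G hb hρ hr0n
  have h1 : ((cset S ρ G r1 r2).filter (fun t => rr S ρ t G ≤ r0 ∧
      ∃ j, rr S ρ j G = r0 ∧ zz S ρ j G (ww S ρ t G) < -b)).card ≤
      ((Tr S ρ s G r1).filter (fun a => zz S ρ s G a < -b)).card := by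
    refine Finset.card_le_card_of_injOn (fun t => ww S ρ t G) ?_ ?_
    · intro t ht
      rw [mem_coe, mem_filter] at ht
      obtain ⟨h1, h2, j, hj, hz⟩ := ht
      unfold cset at h1
      rw [mem_filter, mem_range] at h1
      obtain ⟨k1, k2, k3, k4, k5, k6⟩ := h1
      rw [mem_coe, mem_filter]
      have hst : s ≤ t := by
        by_contra hcon
        have := hs' t (by omega)
        omega
      have hsj : s ≤ j := by
        by_contra hcon
        have := hs' j (by omega)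
        omega
      refine ⟨Tr_anti hst k6, ?_⟩
      rw [← zz_const hb hρ hsj (hj.trans hs.symm) (by omega)]
      exact hz
    · intro t ht t' ht' he
      rw [mem_coe, mem_filter] at ht ht'
      have g1 := ht.1
      have g2 := ht'.1
      unfold cset at g1 g2
      rw [mem_filter, mem_range] at g1 g2
      have m1 := (hb n S ρ t G hρ).2.1 g1.1
      have m2 := (hb n S ρ t' G hρ).2.1 g2.1
      rcases lt_trichotomy t t' with h | h | h
      · exact absurd he (ww_inj h m2)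
      · exact h
      · exact absurd he.symm (ww_inj h m1)
  have h2 := hev s (by omega) (by omega)
  have h3 : 0 ≤ Rem S ρ G r1 (psi n b r0) s := by
    unfold Rem
    refine sum_nonneg fun j _ => ?_
    split_ifs
    · exact psi_nonneg _ _ _ _ _
    · exact le_rfl
  have h4 : (((Tr S ρ s G r1).filter (fun a => zz S ρ s G a < -b)).card : ℝ) * (1 / 2) ≤
      ∑ a ∈ Tr S ρ s G r1, psi n b r0 (rr S ρ s G) (zz S ρ s G a) := by
    calc (((Tr S ρ s G r1).filter (fun a => zz S ρ s G a < -b)).card : ℝ) * (1 / 2) =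
        ∑ _a ∈ (Tr S ρ s G r1).filter (fun a => zz S ρ s G a < -b), (1 / 2 : ℝ) := by
          rw [sum_const, nsmul_eq_mul]
      _ ≤ ∑ a ∈ (Tr S ρ s G r1).filter (fun a => zz S ρ s G a < -b),
          psi n b r0 (rr S ρ s G) (zz S ρ s G a) :=
          sum_le_sum fun a ha => psi_half _ _ _ _ _ (mem_filter.1 ha).2.le
      _ ≤ _ := sum_le_sum_of_subset_of_nonneg (filter_subset _ _)
          fun a _ _ => psi_nonneg _ _ _ _ _
  have h5 : (((cset S ρ G r1 r2).filter (fun t => rr S ρ t G ≤ r0 ∧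
      ∃ j, rr S ρ j G = r0 ∧ zz S ρ j G (ww S ρ t G) < -b)).card : ℝ) ≤
      (((Tr S ρ s G r1).filter (fun a => zz S ρ s G a < -b)).card : ℝ) := by exact_mod_cast h1
  linarith

end

end Pool.Agent.H12.PK
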