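import Pool.Agent.H12.PK.Det
import Pool.Graph.R_seed8.W841.PK.Final

/-! # Success with high probability -/

set_option autoImplicit false
set_option linter.unusedSectionVars false

noncomputable section

namespace Pool.Agent.H12.PK

open W841.PK Finset Filter
open W305.PK (cc_nonpos exists_rr)
open Pool.Agent.W577.PK (rv_anti rv_le_sub rv_le_div div_rv)
open scoped Classical symmDiff

/-- the times -/
def vk (k : ℕ) : ℝ := 256 + 16 * (k : ℝ)

theorem vk_zero : vk 0 = 256 := by unfold vk; norm_num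

theorem vk_ge (k : ℕ) : 256 ≤ vk k := by
  unfold vk
  have : (0 : ℝ) ≤ k := Nat.cast_nonneg k
  linarith

theorem vk_mono {k m : ℕ} (h : k ≤ m) : vk k ≤ vk m := by
  unfold vk
  have : (k : ℝ) ≤ m := by exact_mod_cast h
  linarith

/-- the removals counted in mean -/
def pset {n : ℕ} (S : Finset (Fin n)) (ρ : Rule n) (G : SimpleGraph (Fin n)) (r0 r2 : ℕ)
    (y0 : ℝ) : Finset ℕ :=
  (range n).filter (fun t => ww S ρ t G ∈ S ∧ r2 ≤ rr S ρ t G ∧
      rr S ρ t G ≤ r0 ∧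
      √(n : ℝ) / (rr S ρ t G : ℝ) * Xn S ρ t G (ww S ρ t G) ≤
        -(1 / 5) * n / ((rr S ρ t G : ℝ) - 1) ∧
      (∀ j, rr S ρ j G = r0 → -y0 ≤ √(n : ℝ) / r0 * Xn S ρ j G (ww S ρ t G)))

section

variable {n : ℕ} {S : Finset (Fin n)} {ρ : Rule n} {G : SimpleGraph (Fin n)}

theorem find_k (rk : ℕ → ℕ) (r : ℕ) (h0 : r ≤ rk 0) (m : ℕ) (hm : ¬ r ≤ rk m) :
    ∃ k < m, rk (k + 1) ≤ r ∧ r ≤ rk k := by
  induction m with
  | zero => exact absurd h0 hm
  | succ m ih =>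
    by_cases h : r ≤ rk m
    · exact ⟨m, Nat.lt_succ_self m, by omega, h⟩
    · obtain ⟨k, hk, h1⟩ := ih h
      exact ⟨k, by omega, h1⟩

theorem cover (hb : S_Basic) (hρ : IsRule ρ) {M r0 r1 r2 : ℕ} (rk : ℕ → ℕ) (hk0 : rk 0 = r1)
    (hkM : rk M = r0) (y0 : ℝ) :
    cset S ρ G r1 r2 ⊆ ((range M).biUnion (fun k => (cset S ρ G r1 r2).filter
      (fun t => rk (k + 1) ≤ rr S ρ t G ∧ rr S ρ t G ≤ rk k))) ∪
      (pset S ρ G r0 r2 y0 ∪ (cset S ρ G r1 r2).filter (fun t => rr S ρ t G ≤ r0 ∧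
        ∃ j, rr S ρ j G = r0 ∧ zz S ρ j G (ww S ρ t G) < -y0)) := by
  intro t ht
  have ht' := ht
  unfold cset at ht'
  rw [mem_filter] at ht'
  obtain ⟨k1, k2, k3, k4, k5, k6⟩ := ht'
  rw [mem_union, mem_union]
  by_cases h : rr S ρ t G ≤ r0
  · right
    by_cases h2 : ∀ j, rr S ρ j G = r0 → -y0 ≤ √(n : ℝ) / r0 * Xn S ρ j G (ww S ρ t G)
    · left
      unfold pset
      rw [mem_filter]
      exact ⟨k1, k2, k3, h, k5, h2⟩
    · right
      push Not at h2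
      obtain ⟨j, hj, hj2⟩ := h2
      rw [mem_filter]
      refine ⟨ht, h, j, hj, ?_⟩
      have hXs : Xs S ρ j G (ww S ρ t G) = Xn S ρ j G (ww S ρ t G) := by
        unfold Xs
        rw [if_pos k2]
      have hcc := cc_nonpos S ρ j G hb hρ
      unfold zz
      rw [hXs, hj]
      linarith
  · left
    rw [mem_biUnion]
    obtain ⟨k, hk, h1, h2⟩ := find_k rk (rr S ρ t G) (by rw [hk0]; exact k4) M
      (by rw [hkM]; exact h)
    exact ⟨k, mem_range.2 hk, mem_filter.2 ⟨ht, h1, h2⟩⟩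

theorem cset_card (hb : S_Basic) (hρ : IsRule ρ) (hS : S.card = Nat.sqrt n) (hn : 1 ≤ n) {M r2 : ℕ}
    (hr2 : 2 ≤ r2) (hr0 : 1 ≤ rv n (vk M)) {ε : ℝ} (hε : 0 < ε)
    (hεM : 2 * (((M : ℝ) + 1) * ε) ≤ 0.0005)
    (hph : 2 * Ph (-((vk M / 10 - 32) / √(vk M - 255))) ≤ 0.0005)
    (hK : ∀ k < M, ∀ t, rv n (vk (k + 1)) ≤ rr S ρ t G → rr S ρ t G ≤ rv n 256 →
      ∑ a ∈ Tr S ρ t G (rv n 256), psi n (vk k / 5) (rv n (vk (k + 1))) (rr S ρ t G)
        (zz S ρ t G a) + Rem S ρ G (rv n 256) (psi n (vk k / 5) (rv n (vk (k + 1)))) t ≤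
        (Ph (-((vk k / 5 - 32) / √(vk (k + 1) - 255))) + ε) * √(n : ℝ))
    (hV : ∀ t, rv n (vk M) ≤ rr S ρ t G → rr S ρ t G ≤ rv n 256 →
      ∑ a ∈ Tr S ρ t G (rv n 256), psi n (vk M / 10) (rv n (vk M)) (rr S ρ t G)
        (zz S ρ t G a) + Rem S ρ G (rv n 256) (psi n (vk M / 10) (rv n (vk M))) t ≤
        (Ph (-((vk M / 10 - 32) / √(vk M - 255))) + ε) * √(n : ℝ))
    (hP : ((pset S ρ G (rv n (vk M)) r2 (vk M / 10)).card : ℝ) < 0.0005 * √(n : ℝ)) :
    ((cset S ρ G (rv n 256) r2).card : ℝ) < 0.015 * √(n : ℝ) := by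
  have hq : 0 < √(n : ℝ) := Real.sqrt_pos.2 (by exact_mod_cast hn)
  have hph0 : ∀ x, 0 ≤ Ph x := fun x => (a_gauss.2.2.2.2.1 x).1.le
  have hcov := cover (G := G) (S := S) (r2 := r2) (r1 := rv n 256) (r0 := rv n (vk M)) hb hρ
    (M := M) (fun k => rv n (vk k)) (by show rv n (vk 0) = rv n 256; rw [vk_zero]) rfl (vk M / 10)
  have h1 := card_le_card hcov
  have h2 := h1.trans ((card_union_le _ _).trans (add_le_add (card_biUnion_le) (card_union_le _ _)))
  have h3 : ((cset S ρ G (rv n 256) r2).card : ℝ) ≤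
      ∑ k ∈ range M, (((cset S ρ G (rv n 256) r2).filter
        (fun t => rv n (vk (k + 1)) ≤ rr S ρ t G ∧ rr S ρ t G ≤ rv n (vk k))).card : ℝ) +
      (((pset S ρ G (rv n (vk M)) r2 (vk M / 10)).card : ℝ) +
        (((cset S ρ G (rv n 256) r2).filter (fun t => rr S ρ t G ≤ rv n (vk M) ∧
        ∃ j, rr S ρ j G = rv n (vk M) ∧ zz S ρ j G (ww S ρ t G) < -(vk M / 10))).card : ℝ)) := by
    exact_mod_cast h2
  have h4 : ∀ k ∈ range M, (((cset S ρ G (rv n 256) r2).filter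
      (fun t => rv n (vk (k + 1)) ≤ rr S ρ t G ∧ rr S ρ t G ≤ rv n (vk k))).card : ℝ) ≤
      (0.0018 * (1 / 1.15 : ℝ) ^ (k + 1) + 2 * ε) * √(n : ℝ) := by
    intro k hk
    have hkM : k < M := mem_range.1 hk
    have hrk : 1 ≤ rv n (vk k) := hr0.trans (rv_anti n (by have := vk_ge k; linarith)
      (vk_mono hkM.le))
    have hrk' : (0 : ℝ) < (rv n (vk k) : ℝ) := by exact_mod_cast hrk
    have hbk : vk k / 5 ≤ 1 / 5 * (n : ℝ) / (rv n (vk k) : ℝ) := by
      have h5 := rv_le_div n (x := vk k) (by have := vk_ge k; linarith)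
      rw [le_div_iff₀ hrk']
      rw [le_div_iff₀ (by have := vk_ge k; linarith)] at h5
      linarith
    have h5 := cntA (G := G) hb hρ hr2 hbk (mul_nonneg (add_nonneg (hph0 _) hε.le) hq.le)
      (hK k hkM)
    refine h5.trans ?_
    have h6 := win_le k
    have h7 : vk (k + 1) = 256 + 16 * ((k : ℝ) + 1) := by
      unfold vk
      push_cast
      ring
    have h8 : vk k = 256 + 16 * (k : ℝ) := rfl
    rw [h7, h8]
    have h9 : 2 * (Ph (-(((256 + 16 * (k : ℝ)) / 5 - 32) /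
        √(256 + 16 * ((k : ℝ) + 1) - 255))) + ε) ≤
        0.0018 * (1 / 1.15 : ℝ) ^ (k + 1) + 2 * ε := by linarith
    have h10 := mul_le_mul_of_nonneg_right h9 hq.le
    linarith
  have h5 := sum_le_sum h4
  rw [← sum_mul, sum_add_distrib, sum_const, card_range, nsmul_eq_mul] at h5
  have h6 := geo_le M
  have h7 := cntD (G := G) (r2 := r2) hb hρ (b := vk M / 10) hr0
    (rv_anti n (by norm_num) (vk_ge M)) (by rw [hS]; exact rv_le_sub n _) hV
  have h8 : ∑ k ∈ range M, (((cset S ρ G (rv n 256) r2).filter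
      (fun t => rv n (vk (k + 1)) ≤ rr S ρ t G ∧ rr S ρ t G ≤ rv n (vk k))).card : ℝ) ≤
      (0.012 + M * (2 * ε)) * √(n : ℝ) :=
    h5.trans (mul_le_mul_of_nonneg_right (by linarith) hq.le)
  have h9 : 2 * ((Ph (-((vk M / 10 - 32) / √(vk M - 255))) + ε) * √(n : ℝ)) ≤
      (0.0005 + 2 * ε) * √(n : ℝ) := by
    have : 2 * (Ph (-((vk M / 10 - 32) / √(vk M - 255))) + ε) ≤ 0.0005 + 2 * ε := by linarith
    have := mul_le_mul_of_nonneg_right this hq.le
    linarith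
  have h10 : (0.012 + (M : ℝ) * (2 * ε)) * √(n : ℝ) + (0.0005 + 2 * ε) * √(n : ℝ) ≤
      0.013 * √(n : ℝ) := by
    have : (0.012 + (M : ℝ) * (2 * ε)) + (0.0005 + 2 * ε) ≤ 0.013 := by linarith
    have := mul_le_mul_of_nonneg_right this hq.le
    linarith
  linarith

end

/-- the choice of the last time -/
theorem choose_M (η : ℝ) (hη : 0 < η) : ∃ M : ℕ, 640 ≤ vk M ∧
    2000 * Real.exp (-(0.04 * vk M)) ≤ η ∧
    2 * Ph (-((vk M / 10 - 32) / √(vk M - 255))) ≤ 0.0005 := by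
  have hv : Tendsto vk atTop atTop := by
    unfold vk
    exact tendsto_atTop_add_const_left _ _
      (tendsto_natCast_atTop_atTop.const_mul_atTop (by norm_num))
  have t1 : Tendsto (fun M : ℕ => 2000 * Real.exp (-(0.04 * vk M))) atTop (nhds 0) := by
    have h1 : Tendsto (fun M : ℕ => -(0.04 * vk M)) atTop atBot :=
      tendsto_neg_atTop_atBot.comp (hv.const_mul_atTop (by norm_num))
    have h2 := (Real.tendsto_exp_atBot.comp h1).const_mul 2000
    rw [mul_zero] at h2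
    exact h2
  have t2 : Tendsto (fun M : ℕ => 2 * Ph (-((vk M / 10 - 32) / √(vk M - 255)))) atTop
      (nhds 0) := by
    have h1 : Tendsto (fun M : ℕ => √(vk M) / 20) atTop atTop :=
      (Real.tendsto_sqrt_atTop.comp hv).atTop_div_const (by norm_num)
    have h2 : Tendsto (fun M : ℕ => (vk M / 10 - 32) / √(vk M - 255)) atTop atTop := by
      refine tendsto_atTop_mono' _ ?_ h1
      filter_upwards [hv.eventually_ge_atTop 640] with M hM
      have h3 : 0 < √(vk M - 255) := Real.sqrt_pos.2 (by linarith)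
      have h4 : √(vk M - 255) ≤ √(vk M) := Real.sqrt_le_sqrt (by linarith)
      rw [le_div_iff₀ h3]
      have h5 : √(vk M) * √(vk M) = vk M := Real.mul_self_sqrt (by linarith)
      have h6 := Real.sqrt_nonneg (vk M)
      calc √(vk M) / 20 * √(vk M - 255) ≤ √(vk M) / 20 * √(vk M) :=
            mul_le_mul_of_nonneg_left h4 (by positivity)
        _ = vk M / 20 := by linarith
        _ ≤ vk M / 10 - 32 := by linarith
    have h3 := ((a_gauss.2.2.2.2.2.2.1.comp (tendsto_neg_atTop_atBot.comp h2))).const_mul 2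
    rw [mul_zero] at h3
    exact h3
  obtain ⟨M, ⟨h1, h2⟩, h3⟩ := (((t1.eventually_le_const hη).and
    (t2.eventually_le_const (show (0 : ℝ) < 0.0005 by norm_num))).and
    (hv.eventually_ge_atTop 640)).exists
  exact ⟨M, h3, h1, h2⟩

/-- success with high probability from the certificate at time `256` -/
theorem succ_whp (g : ℝ → ℝ) (hg : AS 256 g) (hg32 : 11 / 20 ≤ g (-32)) (η : ℝ) (hη : 0 < η) :
    ∃ n0 : ℕ, ∀ n ≥ n0, ∀ (S : Finset (Fin n)) (ρ : Rule n), S.card = Nat.sqrt n → IsRule ρ →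
      1 - η ≤ Pr (fun G => SuccN ρ (plant G S) S (53 / 100 * √(n : ℝ))) := by
  have hb := a_basic
  obtain ⟨M, hM640, hM1, hM2⟩ := choose_M (η / 6) (by positivity)
  obtain ⟨ε, hεd⟩ : ∃ ε : ℝ, ε = 0.00025 / ((M : ℝ) + 1) := ⟨_, rfl⟩
  have hM0 : (0 : ℝ) ≤ M := Nat.cast_nonneg M
  have hε : 0 < ε := by rw [hεd]; positivity
  have hεM : 2 * (((M : ℝ) + 1) * ε) ≤ 0.0005 := by
    rw [hεd]
    have : ((M : ℝ) + 1) * (0.00025 / ((M : ℝ) + 1)) = 0.00025 := by
      field_simp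
    rw [this]
    norm_num
  obtain ⟨C, hC, n1, h1⟩ := a_pr 1
  obtain ⟨n2, h2⟩ := Pool.Agent.W782.PK.se Pool.Agent.W782.PK.hoeff (1 / 200)
    (min (1 / 100) (η / 6)) (by norm_num) (by positivity)
  obtain ⟨n3, h3⟩ := Pool.Agent.W782.PK.he Pool.Agent.W782.PK.hoeff
    (min (1 / 200) (η / 6)) (by positivity)
  have hW := ((hg (-32) (1 / 1000) (by norm_num)).and
    (Whp.all (P := fun k n S ρ G => ∀ t, rv n (vk (k + 1)) ≤ rr S ρ t G → rr S ρ t G ≤ rv n 256 →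
      ∑ a ∈ Tr S ρ t G (rv n 256), psi n (vk k / 5) (rv n (vk (k + 1))) (rr S ρ t G)
        (zz S ρ t G a) + Rem S ρ G (rv n 256) (psi n (vk k / 5) (rv n (vk (k + 1)))) t ≤
        (Ph (-((vk k / 5 - 32) / √(vk (k + 1) - 255))) + ε) * √(n : ℝ)) M
      (fun k _ => key (vk (k + 1)) (vk k / 5) ε (vk_ge _)
        (by have := vk_ge k; linarith) hε))).and
    (key (vk M) (vk M / 10) ε (vk_ge _) (by linarith) hε)
  obtain ⟨n4, h4⟩ := hW (η / 6) (by positivity)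
  obtain ⟨n5, h5⟩ := det_part' C hC
  obtain ⟨n6, hn6, h6⟩ := div_rv (vk M) (by linarith) 1 one_pos
  -- size conditions
  obtain ⟨n7, hn7⟩ : ∃ n7 : ℕ, 6 / η < n7 := exists_nat_gt _
  obtain ⟨n8, hn8⟩ : ∃ n8 : ℕ, (2 * (vk M + 1)) ^ 2 < n8 := exists_nat_gt _
  refine ⟨n1 + n2 + n3 + n4 + n5 + n6 + n7 + n8 + 10 ^ 8, fun n hn S ρ hS hρ => ?_⟩
  have hn10 : 10 ^ 8 ≤ n := by omega
  have hn10' : (10 : ℝ) ^ 8 ≤ n := by exact_mod_cast hn10
  have hn7' : 6 / η < (n : ℝ) := lt_of_lt_of_le hn7 (by exact_mod_cast (by omega : n7 ≤ n))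
  have hn8' : (2 * (vk M + 1)) ^ 2 < (n : ℝ) :=
    lt_of_lt_of_le hn8 (by exact_mod_cast (by omega : n8 ≤ n))
  have e1 := h1 n (by omega)
  have e2 := h2 n (by omega)
  have e3 := h3 n (by omega) S hS
  have e4 := h4 n (by omega) S ρ hS hρ
  have e5 := h5 n (by omega) S ρ
  obtain ⟨hr0pos, hr0a, hr0b⟩ := h6 n (by omega)
  obtain ⟨r0, hr0⟩ : ∃ r0 : ℕ, r0 = rv n (vk M) := ⟨_, rfl⟩
  obtain ⟨q, hq⟩ : ∃ q : ℝ, q = √(n : ℝ) := ⟨_, rfl⟩
  obtain ⟨r2, hr2⟩ : ∃ r2 : ℕ, r2 = ⌈(1 / 100 : ℝ) * √(n : ℝ)⌉₊ := ⟨_, rfl⟩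
  rw [← hr0] at hr0pos hr0a hr0b
  have hq4 : (10 : ℝ) ^ 4 ≤ q := by
    rw [hq]
    apply Real.le_sqrt_of_sq_le
    linarith
  have hqn : q ^ 2 = n := by rw [hq]; exact Real.sq_sqrt (by positivity)
  have hqV : 2 * (vk M + 1) < q := by
    rw [hq]
    exact Real.lt_sqrt_of_sq_lt hn8'
  have hr2two : 2 ≤ r2 := by
    have : (1 : ℝ) < (1 / 100 : ℝ) * √(n : ℝ) := by rw [← hq]; linarith
    have h' : 1 < r2 := by rw [hr2]; exact Nat.lt_ceil.2 (by exact_mod_cast this)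
    exact h'
  have hr0pos' : (0 : ℝ) < r0 := by exact_mod_cast hr0pos
  have hr0ge : 2 * q ≤ (r0 : ℝ) := by
    rw [div_le_iff₀ hr0pos'] at hr0b
    have h7 : 2 * (vk M + 1) * q ≤ (vk M + 1) * r0 := by
      have : 2 * (vk M + 1) * q ≤ q * q := mul_le_mul_of_nonneg_right hqV.le (by linarith)
      nlinarith
    have h8 : 0 < vk M + 1 := by linarith
    have h9 : (vk M + 1) * (2 * q) ≤ (vk M + 1) * r0 := by linarith
    exact le_of_mul_le_mul_left h9 h8
  have hr21 : r2 ≤ r0 := by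
    rw [hr2]
    apply Nat.ceil_le.2
    rw [← hq]
    linarith
  have hr0n : r0 ≤ n - S.card := by
    rw [hS, hr0]
    exact min_le_right _ _
  -- the counting event
  have e6 := a_p2 n S ρ r0 r2 (1 / 5) (vk M / 10) hρ (by omega) hr2two hr21 hr0n (by norm_num)
  have e6' : Ex (fun G => ((pset S ρ G r0 r2 (vk M / 10)).card : ℝ)) ≤
      q * Real.exp (-(0.04 * vk M)) := by
    refine le_trans (le_of_eq (Ex_congr fun G => ?_)) (e6.trans ?_)
    · rfl
    · have hr0p : (0 : ℝ) < (r0 : ℝ) - 1 := by linarith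
      have h7 : vk M ≤ (n : ℝ) / ((r0 : ℝ) - 1) := by
        refine hr0a.trans ?_
        exact div_le_div_of_nonneg_left (by positivity) hr0p (by linarith)
      have hexp : Real.exp (2 * (1 / 5) * (vk M / 10) - 2 * (1 / 5) ^ 2 * (n : ℝ) /
          ((r0 : ℝ) - 1)) ≤ Real.exp (-(0.04 * vk M)) := by
        refine Real.exp_le_exp.2 ?_
        have h' : 2 * (1 / 5) ^ 2 * (n : ℝ) / ((r0 : ℝ) - 1) =
            2 / 25 * ((n : ℝ) / ((r0 : ℝ) - 1)) := by ring
        rw [h']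
        linarith
      have hk : (S.card : ℝ) ≤ q := by
        rw [hS, hq]
        exact Pool.Agent.W577.PK.natSqrt_le n
      exact mul_le_mul hk hexp (Real.exp_pos _).le (by linarith)
  have e7 : Pr (fun G : SimpleGraph (Fin n) =>
      0.0005 * q ≤ ((pset S ρ G r0 r2 (vk M / 10)).card : ℝ)) ≤ η / 6 := by
    refine (Pr_markov (fun G => ((pset S ρ G r0 r2 (vk M / 10)).card : ℝ))
      (fun G => by positivity) (0.0005 * q) (by linarith)).trans ?_
    rw [div_le_iff₀ (by linarith)]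
    have h8 : q * Real.exp (-(0.04 * vk M)) ≤ q * (η / 6 / 2000) := by
      refine mul_le_mul_of_nonneg_left ?_ (by linarith)
      linarith
    linarith
  have e1' : Pr (fun G : SimpleGraph (Fin n) => ¬ PRev C G) ≤ η / 6 := by
    refine e1.trans ?_
    rw [pow_one, div_le_iff₀ (by linarith)]
    rw [div_lt_iff₀ hη] at hn7'
    linarith
  have e2' : Pr (fun G : SimpleGraph (Fin n) => ¬ SEok G) ≤ η / 6 := by
    refine (Pr_mono fun G hG => ?_).trans (e2.trans (min_le_right _ _))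
    unfold SEok at hG
    push Not at hG
    obtain ⟨N, hN1, hN2⟩ := hG
    refine ⟨N, hN1, lt_of_le_of_lt ?_ hN2⟩
    refine mul_le_mul_of_nonneg_left (Real.sqrt_le_sqrt ?_) (by positivity)
    refine mul_le_mul_of_nonneg_left ?_ (Nat.cast_nonneg _)
    have := min_le_left (1 / 100 : ℝ) (η / 6)
    linarith
  have e3' : Pr (fun G : SimpleGraph (Fin n) => ¬ HEok S G) ≤ η / 6 := by
    refine (Pr_mono fun G hG => ?_).trans (e3.trans (min_le_right _ _))
    unfold HEok at hG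
    push Not at hG
    obtain ⟨w, hw1, hw2⟩ := hG
    refine ⟨w, hw1, lt_of_le_of_lt ?_ hw2⟩
    exact mul_le_mul_of_nonneg_right (min_le_left _ _) (Real.sqrt_nonneg _)
  have key2 : Pr (fun G => ¬ SuccN ρ (plant G S) S (53 / 100 * √(n : ℝ))) ≤
      Pr (fun G : SimpleGraph (Fin n) => ¬ PRev C G) +
      (Pr (fun G : SimpleGraph (Fin n) => ¬ SEok G) +
      (Pr (fun G : SimpleGraph (Fin n) => ¬ HEok S G) +
      (η / 6 + Pr (fun G : SimpleGraph (Fin n) =>
        0.0005 * q ≤ ((pset S ρ G r0 r2 (vk M / 10)).card : ℝ))))) := by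
    refine le_trans (Pr_mono (fun G hG => ?_)) ((Pr_or_le _ _).trans (add_le_add le_rfl
      ((Pr_or_le _ _).trans (add_le_add le_rfl ((Pr_or_le _ _).trans (add_le_add le_rfl
      ((Pr_or_le _ _).trans (add_le_add e4 le_rfl))))))))
    by_contra hcon
    simp only [not_or, not_not] at hcon
    obtain ⟨c1, c2, c3, ⟨⟨c4, c5⟩, c6⟩, c7⟩ := hcon
    apply hG
    apply e5 G hS hρ c1 c2 c3
    · intro t ht
      refine le_trans ?_ (c4 t ht)
      apply mul_le_mul_of_nonneg_right _ (Real.sqrt_nonneg _)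
      linarith
    · rw [← hr2]
      refine cset_card hb hρ hS (by omega) hr2two (by rw [← hr0]; exact hr0pos) hε hεM hM2 c5 c6 ?_
      rw [← hr0, ← hq]
      exact not_le.1 c7
  rw [Pr_not] at key2
  linarith

/-- the main theorem for deterministic degree-based tie-breaking rules -/
theorem main_whp (η : ℝ) (hη : 0 < η) :
    ∃ n0 : ℕ, ∀ n ≥ n0, ∀ (S : Finset (Fin n)) (ρ : Rule n), S.card = Nat.sqrt n → IsRule ρ →
      1 - η ≤ Pr (fun G => SuccN ρ (plant G S) S (53 / 100 * √(n : ℝ))) := by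
  obtain ⟨g, h1, h2⟩ := at256 b_warm (b_run b_stepg b_csq)
  exact succ_whp g h1 h2 η hη

end Pool.Agent.H12.PK
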