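import Pool.Graph.R_seed8.W841.PK.Main

/-! # Gaussian tails -/

set_option autoImplicit false
set_option linter.unusedSectionVars false

noncomputable section

namespace Pool.Agent.H12.PK

open W841.PK Filter

theorem gd_eq (x : ℝ) : gd x = Real.exp (-x ^ 2 / 2) * gd 0 := by
  unfold gd
  norm_num
  ring

theorem gd_le (x : ℝ) : gd x ≤ 2 / 5 * Real.exp (-x ^ 2 / 2) := by
  rw [gd_eq x]
  have h := (a_gauss.2.1 0).2
  have := Real.exp_pos (-x ^ 2 / 2)
  nlinarith

theorem gd_deriv (x : ℝ) : HasDerivAt gd (-x * gd x) x := by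
  have h1 : HasDerivAt (fun x : ℝ => -x ^ 2 / 2) (-x) x := by
    have h2 := ((hasDerivAt_pow 2 x).neg).div_const 2
    refine h2.congr_deriv ?_
    norm_num
    ring
  have h3 := (h1.exp).div_const (√(2 * Real.pi))
  refine h3.congr_deriv ?_
  unfold gd
  ring

/-- the bound of Mills -/
theorem mills {x : ℝ} (hx : 0 < x) : Ph (-x) ≤ gd x / x := by
  obtain ⟨g1, g2, g3, g4, g5, g6, g7, -, -, -, -⟩ := a_gauss
  obtain ⟨h, hh⟩ : ∃ h : ℝ → ℝ, h = fun t => gd t / t - Ph (-t) := ⟨_, rfl⟩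
  have hder : ∀ t : ℝ, 0 < t → HasDerivAt h (-(gd t / t ^ 2)) t := by
    intro t ht
    have h1 := (gd_deriv t).div (hasDerivAt_id t) ht.ne'
    have h2 : HasDerivAt (fun t : ℝ => Ph (-t)) (gd (-t) * (-1)) t :=
      (g1 (-t)).comp t (hasDerivAt_neg t)
    have h3 : gd (-t) = gd t := by
      unfold gd
      rw [neg_sq]
    rw [h3] at h2
    rw [hh]
    refine (h1.sub h2).congr_deriv ?_
    simp only [id]
    field_simp
    ring
  have hanti : AntitoneOn h (Set.Ici x) := by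
    refine antitoneOn_of_deriv_nonpos (convex_Ici _) ?_ ?_ ?_
    · intro s hs
      exact (hder s (lt_of_lt_of_le hx hs)).continuousAt.continuousWithinAt
    · intro s hs
      rw [interior_Ici] at hs
      exact (hder s (hx.trans hs)).differentiableAt.differentiableWithinAt
    · intro s hs
      rw [interior_Ici] at hs
      rw [(hder s (hx.trans hs)).deriv]
      have := (g2 s).1
      have : 0 ≤ gd s / s ^ 2 := by positivity
      linarith
  have ht1 : Tendsto (fun t : ℝ => gd t / t) atTop (nhds 0) := by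
    have h1 : Tendsto (fun t : ℝ => 2 / 5 / t) atTop (nhds 0) :=
      tendsto_const_nhds.div_atTop tendsto_id
    refine squeeze_zero' ?_ ?_ h1
    · filter_upwards [eventually_gt_atTop 0] with t ht
      have := (g2 t).1
      positivity
    · filter_upwards [eventually_gt_atTop 0] with t ht
      exact div_le_div_of_nonneg_right (g2 t).2 ht.le
  have ht2 : Tendsto (fun t : ℝ => Ph (-t)) atTop (nhds 0) := g7.comp tendsto_neg_atTop_atBot
  have ht : Tendsto h atTop (nhds 0) := by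
    have := ht1.sub ht2
    rw [sub_zero] at this
    rw [hh]
    exact this
  have h0 : 0 ≤ h x := by
    refine le_of_tendsto ht ?_
    filter_upwards [eventually_ge_atTop x] with t htx
    exact hanti (Set.mem_Ici.2 le_rfl) (Set.mem_Ici.2 htx) htx
  rw [hh] at h0
  simp only at h0
  linarith

theorem Ph_half {x : ℝ} (hx : 0 ≤ x) : 1 / 2 ≤ Ph x := by
  obtain ⟨-, -, g3, g4, -⟩ := a_gauss
  have h1 := g3 0
  rw [neg_zero] at h1
  have h2 := g4 hx
  linarith

/-- the Gaussian tail with explicit constants -/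
theorem tail_le {x c : ℝ} (hc : 0 < c) (hx : c ≤ x) :
    Ph (-x) ≤ 2 / 5 / c * Real.exp (-x ^ 2 / 2) := by
  have hx0 : 0 < x := lt_of_lt_of_le hc hx
  refine (mills hx0).trans ?_
  have h1 := gd_le x
  have h2 := Real.exp_pos (-x ^ 2 / 2)
  calc gd x / x ≤ (2 / 5 * Real.exp (-x ^ 2 / 2)) / x := div_le_div_of_nonneg_right h1 hx0.le
    _ ≤ (2 / 5 * Real.exp (-x ^ 2 / 2)) / c :=
        div_le_div_of_nonneg_left (by positivity) hc hx
    _ = _ := by ring

theorem exp5 : Real.exp (-5) ≤ 0.007 := by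
  have h8 : (2.7 : ℝ) ≤ Real.exp 1 := by
    have := Real.exp_one_gt_d9
    linarith
  have h7 : Real.exp 5 = Real.exp 1 ^ 5 := by
    rw [← Real.exp_nat_mul]
    norm_num
  rw [Real.exp_neg, h7]
  have h9 : (2.7 : ℝ) ^ 5 ≤ Real.exp 1 ^ 5 := pow_le_pow_left₀ (by norm_num) h8 5
  have h10 : (0.007 : ℝ)⁻¹ ≤ Real.exp 1 ^ 5 := by
    refine le_trans ?_ h9
    norm_num
  have h11 : 0 < Real.exp 1 ^ 5 := by positivity
  rw [inv_le_comm₀ h11 (by norm_num)]
  exact h10

theorem exp015 (m : ℕ) : Real.exp (-(0.15 * (m : ℝ))) ≤ (1 / 1.15 : ℝ) ^ m := by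
  have h1 : (1.15 : ℝ) ≤ Real.exp 0.15 := by
    have := Real.add_one_le_exp (0.15 : ℝ)
    linarith
  have h2 : Real.exp (-(0.15 * (m : ℝ))) = (Real.exp 0.15)⁻¹ ^ m := by
    rw [← Real.exp_neg, ← Real.exp_nat_mul]
    congr 1
    ring
  rw [h2]
  refine pow_le_pow_left₀ (by positivity) ?_ m
  rw [one_div]
  exact inv_anti₀ (by norm_num) h1

/-- the windows -/
theorem win_le (k : ℕ) :
    2 * Ph (-(((256 + 16 * (k : ℝ)) / 5 - 32) / √(256 + 16 * ((k : ℝ) + 1) - 255))) ≤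
      0.0018 * (1 / 1.15 : ℝ) ^ (k + 1) := by
  obtain ⟨m, hm⟩ : ∃ m : ℝ, m = (k : ℝ) + 1 := ⟨_, rfl⟩
  have hk : (k : ℝ) = m - 1 := by linarith
  have hm1 : 1 ≤ m := by
    have : (0 : ℝ) ≤ k := Nat.cast_nonneg k
    linarith
  obtain ⟨x, hx⟩ : ∃ x : ℝ, x = ((256 + 16 * (k : ℝ)) / 5 - 32) /
    √(256 + 16 * ((k : ℝ) + 1) - 255) := ⟨_, rfl⟩
  rw [← hx]
  have hs0 : 0 < 16 * m + 1 := by linarith
  have hx2 : x = (16 + 3.2 * m) / √(16 * m + 1) := by
    rw [hx, ← hm, hk]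
    congr 1
    · ring
    · congr 1
      ring
  have hxpos : 0 < x := by
    rw [hx2]
    have : 0 < √(16 * m + 1) := Real.sqrt_pos.2 hs0
    positivity
  have hxx : 10.26 + 0.3 * m ≤ x ^ 2 := by
    rw [hx2, div_pow, Real.sq_sqrt hs0.le, le_div_iff₀ hs0]
    nlinarith [sq_nonneg (m - 5.7)]
  have hx3 : 3.2 ≤ x := by
    by_contra hcon
    push Not at hcon
    have : x ^ 2 < 3.2 ^ 2 := pow_lt_pow_left₀ hcon hxpos.le (by norm_num)
    norm_num at this
    linarith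
  have h1 := tail_le (c := 3.2) (by norm_num) hx3
  have h2 : Real.exp (-x ^ 2 / 2) ≤ Real.exp (-5) * Real.exp (-(0.15 * ((k + 1 : ℕ) : ℝ))) := by
    rw [← Real.exp_add]
    refine Real.exp_le_exp.2 ?_
    push_cast
    rw [← hm]
    linarith
  have h3 := exp015 (k + 1)
  have h4 := exp5
  have h5 := Real.exp_pos (-(0.15 * ((k + 1 : ℕ) : ℝ)))
  have h6 : 0 < (1 / 1.15 : ℝ) ^ (k + 1) := by positivity
  calc 2 * Ph (-x) ≤ 2 * (2 / 5 / 3.2 * Real.exp (-x ^ 2 / 2)) := by linarith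
    _ ≤ 2 * (2 / 5 / 3.2 * (Real.exp (-5) * Real.exp (-(0.15 * ((k + 1 : ℕ) : ℝ))))) := by
        have : (0 : ℝ) ≤ 2 / 5 / 3.2 := by norm_num
        have := mul_le_mul_of_nonneg_left h2 this
        linarith
    _ ≤ 2 * (2 / 5 / 3.2 * (0.007 * (1 / 1.15 : ℝ) ^ (k + 1))) := by
        have h7 : Real.exp (-5) * Real.exp (-(0.15 * ((k + 1 : ℕ) : ℝ))) ≤
            0.007 * (1 / 1.15 : ℝ) ^ (k + 1) :=
          mul_le_mul h4 h3 h5.le (by norm_num)
        have : (0 : ℝ) ≤ 2 / 5 / 3.2 := by norm_num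
        have := mul_le_mul_of_nonneg_left h7 this
        linarith
    _ ≤ 0.0018 * (1 / 1.15 : ℝ) ^ (k + 1) := by
        have : 2 * (2 / 5 / 3.2 * (0.007 * (1 / 1.15 : ℝ) ^ (k + 1))) =
            0.00175 * (1 / 1.15 : ℝ) ^ (k + 1) := by norm_num; ring
        rw [this]
        nlinarith

theorem geo_le (M : ℕ) : ∑ k ∈ Finset.range M, 0.0018 * (1 / 1.15 : ℝ) ^ (k + 1) ≤ 0.012 := by
  have h : ∀ M : ℕ, ∑ k ∈ Finset.range M, 0.0018 * (1 / 1.15 : ℝ) ^ (k + 1) =
      0.012 * (1 - (1 / 1.15 : ℝ) ^ M) := by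
    intro M
    induction M with
    | zero => simp
    | succ M ih =>
      rw [Finset.sum_range_succ, ih, pow_succ]
      ring_nf
  rw [h M]
  have : 0 < (1 / 1.15 : ℝ) ^ M := by positivity
  nlinarith

end Pool.Agent.H12.PK
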