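import Pool.Graph.R_seed8.W577.PK.FlowS
import Pool.Graph.R_seed8.W305.PK.End

/-! # Tracking the planted vertices after time `256` -/

set_option autoImplicit false
set_option linter.unusedSectionVars false

noncomputable section

namespace Pool.Agent.H12.PK

open W841.PK Finset
open Pool.Agent.W577.PK (window inc_zero inc_S inc_N zz_S lt_of_rr step_or)
open scoped Classical

/-- planted vertices left whose position was at least `-32` when `r1` non-planted vertices were
left -/
def Tr {n : ℕ} (S : Finset (Fin n)) (ρ : Rule n) (t : ℕ) (G : SimpleGraph (Fin n)) (r1 : ℕ) :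
    Finset (Fin n) :=
  (SS S ρ t G).filter (fun a => ∀ i ≤ t, rr S ρ i G = r1 → -32 ≤ zz S ρ i G a)

section

variable {n : ℕ} {S : Finset (Fin n)} {ρ : Rule n} {G : SimpleGraph (Fin n)}

theorem meas_Tr (hm : S_MeasP) (hρ : IsRule ρ)
    (r1 t : ℕ) : Meas S ρ t (fun G => Tr S ρ t G r1) := by
  intro G G' hG
  have h := hm n S ρ t G G' hρ hG
  have hR : ∀ i ≤ t, RR S ρ i G = RR S ρ i G' := fun i hi => (hG i hi).1
  have hr : ∀ i ≤ t, rr S ρ i G = rr S ρ i G' := by
    intro i hi; unfold rr NN; rw [hR i hi]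
  have hz : ∀ i ≤ t, ∀ a ∈ RR S ρ i G, zz S ρ i G a = zz S ρ i G' a := by
    intro i hi
    exact (hm n S ρ i G G' hρ (h.1 i hi)).2.2.2.2.2.2.2.2.2.2
  show Tr S ρ t G r1 = Tr S ρ t G' r1
  unfold Tr
  have hSS : SS S ρ t G = SS S ρ t G' := by unfold SS; rw [hR t le_rfl]
  rw [← hSS]
  refine filter_congr fun a ha => ?_
  have haR : ∀ i ≤ t, a ∈ RR S ρ i G := fun i hi => RR_anti S ρ G hi (SS_sub S ρ t G ha)
  constructor
  · intro H i hi hri
    rw [← hz i hi a (haR i hi)]
    exact H i hi (by rw [hr i hi]; exact hri)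
  · intro H i hi hri
    rw [hz i hi a (haR i hi)]
    exact H i hi (by rw [← hr i hi]; exact hri)

/-- the sum over the removed tracked vertices -/
def Rem (S : Finset (Fin n)) (ρ : Rule n) (G : SimpleGraph (Fin n)) (r1 : ℕ) (f : ℕ → ℝ → ℝ)
    (t : ℕ) : ℝ :=
  ∑ j ∈ range t, if rr S ρ j G ≤ r1 ∧ ww S ρ j G ∈ Tr S ρ j G r1 then
    f (rr S ρ j G) (zz S ρ j G (ww S ρ j G)) else 0

/-- telescoping -/
theorem detR (hb : S_Basic) (hρ : IsRule ρ) (hS : S.card = Nat.sqrt n) {r0 r1 : ℕ}
    (h0 : 1 ≤ r0) (h1 : r1 ≤ n - Nat.sqrt n) (f : ℕ → ℝ → ℝ) :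
    ∀ t, r0 ≤ rr S ρ t G → rr S ρ t G ≤ r1 →
      ∃ t0, rr S ρ t0 G = r1 ∧
      ∑ a ∈ Tr S ρ t0 G r1, f r1 (zz S ρ t0 G a) +
        ∑ j ∈ range t, inc S ρ G r0 r1 f (fun t G => Tr S ρ t G r1) j =
      ∑ a ∈ Tr S ρ t G r1, f (rr S ρ t G) (zz S ρ t G a) + Rem S ρ G r1 f t := by
  refine window hb hρ hS h0 h1 _ ?_ ?_
  · intro t ht hr hlt
    refine ⟨t, hr, ?_⟩
    rw [sum_eq_zero (s := range t) (fun j hj => inc_zero (hlt j (mem_range.1 hj))), add_zero, hr]
    have hR : Rem S ρ G r1 f t = 0 := by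
      unfold Rem
      refine sum_eq_zero fun j hj => ?_
      rw [if_neg]
      rintro ⟨h, -⟩
      have := hlt j (mem_range.1 hj)
      omega
    rw [hR, add_zero]
  · intro t ht ha hb' ih
    obtain ⟨t0, hr0, hle⟩ := ih
    refine ⟨t0, hr0, ?_⟩
    have hRs : Rem S ρ G r1 f (t + 1) = Rem S ρ G r1 f t +
        (if rr S ρ t G ≤ r1 ∧ ww S ρ t G ∈ Tr S ρ t G r1 then
          f (rr S ρ t G) (zz S ρ t G (ww S ρ t G)) else 0) := by
      unfold Rem
      rw [sum_range_succ]
    rw [sum_range_succ, hRs]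
    by_cases hw : ww S ρ t G ∈ S
    · rw [inc_S hw, add_zero]
      obtain ⟨_, _, _, h4, _⟩ := hb n S ρ t G hρ
      obtain ⟨_, hSS, hN, hr, _⟩ := h4 (by omega) hw
      have hT : Tr S ρ (t + 1) G r1 = (Tr S ρ t G r1).erase (ww S ρ t G) := by
        ext a
        unfold Tr
        rw [mem_filter, mem_erase, mem_filter, hSS, mem_erase]
        constructor
        · rintro ⟨⟨h5, h1⟩, h2⟩
          exact ⟨h5, h1, fun i hi => h2 i (by omega)⟩
        · rintro ⟨h5, h1, h2⟩
          refine ⟨⟨h5, h1⟩, ?_⟩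
          intro i hi hri
          rcases Nat.lt_or_eq_of_le hi with h | h
          · exact h2 i (by omega) hri
          · subst h
            rw [zz_S hb hρ (show t < n by omega) hw]
            exact h2 t le_rfl (by omega)
      rw [hT, hr]
      simp only [zz_S hb hρ (show t < n by omega) hw]
      by_cases hm : ww S ρ t G ∈ Tr S ρ t G r1
      · rw [if_pos ⟨hb', hm⟩]
        have e1 := add_sum_erase (Tr S ρ t G r1) (fun a => f (rr S ρ t G) (zz S ρ t G a)) hm
        linarith
      · rw [if_neg (fun h => hm h.2), erase_eq_of_notMem hm, add_zero]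
        exact hle
    · rw [inc_N hb hρ (show t < n by omega) hw ha hb']
      obtain ⟨_, _, h3, _, _⟩ := hb n S ρ t G hρ
      obtain ⟨hwN, hN, hr, hSS, _⟩ := h3 (by omega) hw
      have hwT : ww S ρ t G ∉ Tr S ρ t G r1 := by
        intro h
        unfold Tr at h
        rw [mem_filter] at h
        have := h.1
        unfold SS at this
        exact hw (mem_inter.1 this).2
      rw [erase_eq_of_notMem hwT, sum_sub_distrib, if_neg (fun h => hwT h.2), add_zero]
      have hT : Tr S ρ (t + 1) G r1 = Tr S ρ t G r1 := by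
        ext a
        unfold Tr
        rw [mem_filter, mem_filter, hSS]
        constructor
        · rintro ⟨h1, h2⟩
          exact ⟨h1, fun i hi => h2 i (by omega)⟩
        · rintro ⟨h1, h2⟩
          refine ⟨h1, ?_⟩
          intro i hi hri
          rcases Nat.lt_or_eq_of_le hi with h | h
          · exact h2 i (by omega) hri
          · exfalso
            rw [h] at hri
            omega
      rw [hT]
      linarith

/-- tracked vertices at `t` were tracked before -/
theorem Tr_anti {i j r1 : ℕ} (h : i ≤ j) : Tr S ρ j G r1 ⊆ Tr S ρ i G r1 := by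
  intro a ha
  unfold Tr at ha ⊢
  rw [mem_filter] at ha ⊢
  exact ⟨W305.PK.SS_anti S ρ G h ha.1, fun k hk => ha.2 k (hk.trans h)⟩

/-- positions do not change while planted vertices are removed -/
theorem zz_const (hb : S_Basic) (hρ : IsRule ρ) {s j : ℕ} (hsj : s ≤ j)
    (h : rr S ρ j G = rr S ρ s G) (h1 : 1 ≤ rr S ρ s G) (a : Fin n) :
    zz S ρ j G a = zz S ρ s G a := by
  induction j, hsj using Nat.le_induction with
  | base => rfl
  | succ j hj ih =>
    have e1 := W305.PK.rr_anti S ρ G hj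
    have e2 := W305.PK.rr_anti S ρ G (Nat.le_succ j)
    have e3 : rr S ρ j G = rr S ρ s G := by
      have : rr S ρ (j + 1) G ≤ rr S ρ j G := e2
      omega
    have hjn : j < n := lt_of_rr hb hρ (by omega : 1 ≤ rr S ρ j G)
    rcases step_or (S := S) (G := G) hb hρ hjn with h5 | h5
    · rw [zz_S hb hρ hjn h5.1]
      exact ih e3
    · omega

/-- a vertex is removed at most once -/
theorem ww_inj {i j : ℕ} (h : i < j) (hj : ww S ρ j G ∈ RR S ρ j G) :
    ww S ρ i G ≠ ww S ρ j G := by
  intro he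
  have h1 := RR_anti S ρ G (show i + 1 ≤ j from h) hj
  rw [RR_succ] at h1
  exact (mem_erase.1 h1).1 he.symm

end

end Pool.Agent.H12.PK
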