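import Pool.Agent.H12.PK.Gau
import Pool.Agent.H12.PK.Tr
import Pool.Graph.R_seed8.W841.PK.Main

/-! # The tracked vertices with high probability -/

set_option autoImplicit false
set_option linter.unusedSectionVars false

noncomputable section

namespace Pool.Agent.H12.PK

open W841.PK Finset
open Pool.Agent.W577.PK (window inc_zero inc_S inc_N zz_S lt_of_rr step_or good_N div_rv rv_lower
  rv_anti rv_le_sub fN fN' natSqrt_le)
open scoped Classical

/-- the test function -/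
def psi (n : ℕ) (b : ℝ) (r0 r : ℕ) (z : ℝ) : ℝ := Ph ((-b - z) / sdv n (1 / 2) r0 r)

theorem psi_nonneg (n : ℕ) (b : ℝ) (r0 r : ℕ) (z : ℝ) : 0 ≤ psi n b r0 r z :=
  (a_gauss.2.2.2.2.1 _).1.le

theorem psi_half (n : ℕ) (b : ℝ) (r0 r : ℕ) (z : ℝ) (h : z ≤ -b) : 1 / 2 ≤ psi n b r0 r z :=
  Ph_half (div_nonneg (by linarith) (Real.sqrt_nonneg _))

theorem card_Tr {n : ℕ} {S : Finset (Fin n)} {ρ : Rule n} {G : SimpleGraph (Fin n)}
    (hS : S.card = Nat.sqrt n) (t r1 : ℕ) : ((Tr S ρ t G r1).card : ℝ) ≤ √(n : ℝ) := by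
  refine le_trans ?_ (natSqrt_le n)
  rw [← hS]
  exact_mod_cast card_le_card ((filter_subset _ _).trans inter_subset_right)

/-- the bound for the tracked vertices which are low, and for those which are removed -/
theorem key (u b ε : ℝ) (hu : 256 ≤ u) (hbb : 32 ≤ b) (hε : 0 < ε) :
    Whp (fun n S ρ G => ∀ t, rv n u ≤ rr S ρ t G → rr S ρ t G ≤ rv n 256 →
      ∑ a ∈ Tr S ρ t G (rv n 256), psi n b (rv n u) (rr S ρ t G) (zz S ρ t G a) +
        Rem S ρ G (rv n 256) (psi n b (rv n u)) t ≤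
        (Ph (-((b - 32) / √(u - 255))) + ε) * √(n : ℝ)) := by
  intro η hη
  have hb := a_basic
  have hm := a_mp
  have hg := a_gauss
  obtain ⟨C0, hC0, hgood, -⟩ := good_N a_gstep (1 / 2) (by norm_num)
  have hε1 : 0 < min ε η := lt_min hε hη
  obtain ⟨n1, h1⟩ := a_fl (u + 1) C0 (min ε η) (by linarith) hC0 hε1
  obtain ⟨n3, hn3, h3⟩ := div_rv u (by linarith) (1 / 2) (by norm_num)
  obtain ⟨n4, hn4, h4⟩ := div_rv 256 (by norm_num) (1 / 2) (by norm_num)
  obtain ⟨n5, hn5, h5⟩ := rv_lower u (by linarith) 1 one_pos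
  refine ⟨n1 + n3 + n4 + n5 + ⌈(u + 1) ^ 2⌉₊, fun n hn S ρ hS hρ => ?_⟩
  have hn0 : 1 ≤ n := by omega
  have hnu : (u + 1) ^ 2 ≤ (n : ℝ) := by
    have := Nat.le_ceil ((u + 1) ^ 2)
    have h' : ((⌈(u + 1) ^ 2⌉₊ : ℕ) : ℝ) ≤ n := by exact_mod_cast (by omega)
    linarith
  obtain ⟨hr0, hr0a, hr0b⟩ := h3 n (by omega)
  obtain ⟨hr1, hr1a, hr1b⟩ := h4 n (by omega)
  have h5' := h5 n (by omega)
  obtain ⟨r0, hr0def⟩ : ∃ r0 : ℕ, r0 = rv n u := ⟨_, rfl⟩
  obtain ⟨r1, hr1def⟩ : ∃ r1 : ℕ, r1 = rv n 256 := ⟨_, rfl⟩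
  have hr01 : r0 ≤ r1 := by rw [hr0def, hr1def]; exact rv_anti n (by norm_num) hu
  have hsub : r1 ≤ n - Nat.sqrt n := by rw [hr1def]; exact rv_le_sub n 256
  rw [← hr0def] at hr0 hr0a hr0b h5'
  rw [← hr1def] at hr1 hr1a hr1b
  beta_reduce
  rw [← hr0def, ← hr1def]
  have hgd := (hgood n r0 r1 (u + 1) (-b) (by linarith) hnu h5' hn0).refl' (2 * (-b))
  obtain ⟨g1, g2, g3, g4⟩ := hgd
  have hFL := h1 n (by omega) S ρ hS hρ true r0 r1
    (fun r z => - fN n (1 / 2) (-b) r0 r (2 * (-b) - z))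
    (fun r z => fN' n (1 / 2) (-b) r0 r (2 * (-b) - z))
    (fun t G => Tr S ρ t G r1) h5' g1 g2 g3 g4
    (fun t => meas_Tr hm hρ r1 t)
    (by intro t G; simp only [if_true]; exact filter_subset _ _)
  have hfe : (fun (r : ℕ) (z : ℝ) => - fN n (1 / 2) (-b) r0 r (2 * (-b) - z)) =
      fun r z => - psi n b r0 r z := by
    funext r z
    unfold fN psi
    congr 3
    ring
  rw [hfe] at hFL
  refine le_trans (Pr_mono ?_) (le_trans hFL (min_le_right _ _))
  intro G hG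
  by_contra hcon
  push Not at hcon
  apply hG
  intro t ht0 ht1
  obtain ⟨t0, hrt0, hle⟩ := detR (G := G) hb hρ hS hr0 hsub (fun r z => - psi n b r0 r z) t ht0 ht1
  have htn : t < n := lt_of_rr hb hρ (le_trans hr0 ht0)
  have hc1 := (abs_le.1 (hcon t htn.le)).1
  have hnpos : (0 : ℝ) < √(n : ℝ) := Real.sqrt_pos.2 (by exact_mod_cast hn0)
  have hRem : Rem S ρ G r1 (fun r z => - psi n b r0 r z) t = - Rem S ρ G r1 (psi n b r0) t := by
    unfold Rem
    rw [← sum_neg_distrib]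
    refine sum_congr rfl fun j _ => ?_
    split_ifs <;> simp
  rw [hRem, sum_neg_distrib, sum_neg_distrib] at hle
  have hε2 : min ε η * uu true n ≤ ε * √(n : ℝ) := by
    simp only [uu, if_true]
    exact mul_le_mul_of_nonneg_right (min_le_left _ _) hnpos.le
  -- the start
  have hsd : sdv n (1 / 2) r0 r1 ≤ √(u - 255) := by
    unfold sdv
    refine Real.sqrt_le_sqrt ?_
    norm_num
    linarith
  have hsd0 : 0 < sdv n (1 / 2) r0 r1 := by
    unfold sdv
    refine Real.sqrt_pos.2 ?_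
    have : (n : ℝ) / r1 ≤ (n : ℝ) / r0 :=
      div_le_div_of_nonneg_left (by positivity) (by exact_mod_cast hr0) (by exact_mod_cast hr01)
    norm_num
    linarith
  have hstart : ∑ a ∈ Tr S ρ t0 G r1, psi n b r0 r1 (zz S ρ t0 G a) ≤
      Ph (-((b - 32) / √(u - 255))) * √(n : ℝ) := by
    calc ∑ a ∈ Tr S ρ t0 G r1, psi n b r0 r1 (zz S ρ t0 G a) ≤
        ∑ _a ∈ Tr S ρ t0 G r1, Ph (-((b - 32) / √(u - 255))) := by
          refine sum_le_sum fun a ha => ?_
          unfold Tr at ha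
          have hz := (mem_filter.1 ha).2 t0 le_rfl hrt0
          unfold psi
          refine hg.2.2.2.1 ?_
          have h6 : (-b - zz S ρ t0 G a) / sdv n (1 / 2) r0 r1 ≤
              (-(b - 32)) / sdv n (1 / 2) r0 r1 :=
            div_le_div_of_nonneg_right (by linarith) hsd0.le
          refine h6.trans ?_
          rw [neg_div, neg_le_neg_iff]
          exact div_le_div_of_nonneg_left (by linarith) hsd0 hsd
      _ = ((Tr S ρ t0 G r1).card : ℝ) * Ph (-((b - 32) / √(u - 255))) := by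
          rw [sum_const, nsmul_eq_mul]
      _ ≤ √(n : ℝ) * Ph (-((b - 32) / √(u - 255))) :=
          mul_le_mul_of_nonneg_right (card_Tr hS t0 r1) (hg.2.2.2.2.1 _).1.le
      _ = _ := mul_comm _ _
  linarith

end Pool.Agent.H12.PK
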