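import Pool.Graph.R_seed8.W841.PK.RandPf
import Pool.Agent.H12.PK.Det

/-! # Uniformly random tie-breaking, number of planted vertices found -/

set_option autoImplicit false
set_option linter.unusedSectionVars false

namespace Pool.Agent.H12.PK

open Finset W841.PK
open scoped Classical

noncomputable section

variable {n : ℕ}

/-- the probability that peeling started from the vertex set `R` (at most `t` tests), removing each
time a uniformly random vertex of minimum degree, stops at a clique with at least `c` vertices of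
`S` -/
def rspN (H : SimpleGraph (Fin n)) (S : Finset (Fin n)) (c : ℝ) : ℕ → Finset (Fin n) → ℝ
  | 0, _ => 0
  | t + 1, R =>
    if IsCl H R then (if c ≤ ((R ∩ S).card : ℝ) then 1 else 0)
    else (∑ w ∈ minv H R, rspN H S c t (R.erase w)) / ((minv H R).card : ℝ)

/-- deterministic run with fuel -/
def dspN (H : SimpleGraph (Fin n)) (S : Finset (Fin n)) (c : ℝ) (ρ : Rule n) :
    ℕ → Finset (Fin n) → ℝ
  | 0, _ => 0
  | t + 1, R =>
    if IsCl H R then (if c ≤ ((R ∩ S).card : ℝ) then 1 else 0)
    else dspN H S c ρ t (R.erase (ρ R (dg H R)))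

theorem dspN_update (H : SimpleGraph (Fin n)) (S : Finset (Fin n)) (c : ℝ) (ω : Om n)
    (p : Finset (Fin n) × Finset (Fin n)) (x : {x : Fin n // x ∈ Cs p}) (t : ℕ) :
    ∀ R : Finset (Fin n), ¬ p.1 ⊆ R →
      dspN H S c (rl (Function.update ω p x)) t R = dspN H S c (rl ω) t R := by
  induction t with
  | zero => intro R _; rfl
  | succ t ih =>
    intro R hR
    have hne : (R, MM R (dg H R)) ≠ p := by
      intro e; apply hR; rw [← e]
    have hv : rl (Function.update ω p x) R (dg H R) = rl ω R (dg H R) := by
      unfold rl; rw [Function.update_of_ne hne]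
    rw [dspN, dspN, hv]
    split_ifs
    · rfl
    · rfl
    · exact ih _ fun h => hR (h.trans (erase_subset _ _))

theorem avg_update (p : Finset (Fin n) × Finset (Fin n)) (F : Om n → ℝ) :
    ∑ ω : Om n, ∑ x : {x : Fin n // x ∈ Cs p}, F (Function.update ω p x) =
      (Fintype.card {x : Fin n // x ∈ Cs p} : ℝ) * ∑ ω : Om n, F ω := by
  rw [← sum_product' univ univ (fun ω x => F (Function.update ω p x))]
  have : ∑ z ∈ (univ : Finset (Om n)) ×ˢ (univ : Finset {x : Fin n // x ∈ Cs p}),
      F (Function.update z.1 p z.2) =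
      ∑ z ∈ (univ : Finset (Om n)) ×ˢ (univ : Finset {x : Fin n // x ∈ Cs p}), F z.1 := by
    refine sum_nbij' (fun z => (Function.update z.1 p z.2, z.1 p))
      (fun z => (Function.update z.1 p z.2, z.1 p)) ?_ ?_ ?_ ?_ ?_
    · intro z _; simp
    · intro z _; simp
    · intro z _; simp
    · intro z _; simp
    · intro z _; rfl
  rw [this, sum_product]
  simp only [sum_const, card_univ, nsmul_eq_mul]
  rw [mul_sum]

theorem sum_dspN (H : SimpleGraph (Fin n)) (S : Finset (Fin n)) (c : ℝ) (t : ℕ) :
    ∀ R : Finset (Fin n), ∑ ω : Om n, dspN H S c (rl ω) t R =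
      (Fintype.card (Om n) : ℝ) * rspN H S c t R := by
  induction t with
  | zero => intro R; simp [dspN, rspN]
  | succ t ih =>
    intro R
    by_cases hc : IsCl H R
    · simp only [dspN, rspN, hc, if_true, sum_const, card_univ, nsmul_eq_mul]
    · have hR : R.Nonempty := by
        by_contra h
        rw [not_nonempty_iff_eq_empty] at h
        subst h
        exact hc fun a ha => absurd ha (notMem_empty a)
      simp only [dspN, rspN, hc, if_false]
      set p : Finset (Fin n) × Finset (Fin n) := (R, MM R (dg H R)) with hp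
      have hM : MM R (dg H R) = minv H R := rfl
      have hne : (minv H R).Nonempty := MM_nonempty R _ hR
      have hCs : Cs p = minv H R := Cs_of (MM_nonempty R _ hR)
      have hcard : (Fintype.card {x : Fin n // x ∈ Cs p} : ℝ) = ((minv H R).card : ℝ) := by
        rw [Fintype.card_coe, hCs]
      have hpos : (0 : ℝ) < ((minv H R).card : ℝ) := by exact_mod_cast hne.card_pos
      have h1 := avg_update p (fun ω => dspN H S c (rl ω) t (R.erase (rl ω R (dg H R))))
      have h2 : ∀ (ω : Om n) (x : {x : Fin n // x ∈ Cs p}),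
          dspN H S c (rl (Function.update ω p x)) t
            (R.erase (rl (Function.update ω p x) R (dg H R))) =
          dspN H S c (rl ω) t (R.erase x.1) := by
        intro ω x
        have e : rl (Function.update ω p x) R (dg H R) = x.1 := by
          unfold rl
          rw [← hp, Function.update_self]
        rw [e]
        apply dspN_update
        intro hsub
        have hx : x.1 ∈ R := by
          have hx2 : x.1 ∈ minv H R := hCs ▸ x.2
          exact (mem_filter.1 hx2).1
        exact notMem_erase x.1 R (hsub hx)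
      simp only [h2] at h1
      rw [sum_comm] at h1
      simp only [ih] at h1
      rw [← mul_sum, hcard] at h1
      have h3 : ∑ x : {x : Fin n // x ∈ Cs p}, rspN H S c t (R.erase x.1) =
          ∑ w ∈ minv H R, rspN H S c t (R.erase w) := by
        rw [← hCs]
        exact sum_coe_sort (Cs p) (fun w => rspN H S c t (R.erase w))
      rw [h3] at h1
      rw [mul_div_assoc', eq_div_iff hpos.ne', h1]
      ring

theorem dspN_eq (ρ : Rule n) (hρ : IsRule ρ) (H : SimpleGraph (Fin n)) (S : Finset (Fin n))
    (c : ℝ) (t : ℕ) :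
    ∀ i, i + t = n → 1 ≤ t → (∀ j < i, ¬ IsCl H (Rs ρ H j)) →
      dspN H S c ρ t (Rs ρ H i) = if SuccN ρ H S c then 1 else 0 := by
  have key : ∀ i, IsCl H (Rs ρ H i) → (∀ j < i, ¬ IsCl H (Rs ρ H j)) →
      (c ≤ ((Rs ρ H i ∩ S).card : ℝ) ↔ SuccN ρ H S c) := by
    intro i h1 h2
    constructor
    · intro h; exact ⟨i, h1, h2, h⟩
    · rintro ⟨j, a, b, d⟩
      have : i = j := by
        rcases lt_trichotomy i j with h | h | h
        · exact absurd h1 (b i h)
        · exact h
        · exact absurd a (h2 j h)
      subst this; exact d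
  induction t with
  | zero => intro i _ h; omega
  | succ t ih =>
    intro i hi _ hj
    by_cases hc : IsCl H (Rs ρ H i)
    · rw [dspN, if_pos hc]
      simp only [key i hc hj]
    · rw [dspN, if_neg hc]
      have ht : 1 ≤ t := by
        by_contra h
        apply hc
        have hcard := card_Rs ρ hρ H i (by omega)
        have : (Rs ρ H i).card ≤ 1 := by omega
        intro a ha b hb hab
        exact absurd (card_le_one.1 this a ha b hb) hab
      exact ih (i + 1) (by omega) ht fun j hj' => by
        rcases Nat.lt_succ_iff_lt_or_eq.1 hj' with h | h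
        · exact hj j h
        · subst h; exact hc

/-- bounds for all deterministic rules pass to random tie-breaking -/
theorem randN (n : ℕ) (S : Finset (Fin n)) (d c : ℝ) (hn : 1 ≤ n)
    (hc : ∀ ρ : Rule n, IsRule ρ → c ≤ Pr (fun G => SuccN ρ (plant G S) S d)) :
    c ≤ Ex (fun G => rspN (plant G S) S d n univ) := by
  have : Nonempty (Fin n) := ⟨⟨0, by omega⟩⟩
  have hOm : (0 : ℝ) < (Fintype.card (Om n) : ℝ) := by
    have : Nonempty (Om n) := ⟨fun p => by
      have hne : (Cs p).Nonempty := by
        unfold Cs; split_ifs with h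
        · exact h
        · exact univ_nonempty
      exact ⟨hne.choose, hne.choose_spec⟩⟩
    exact_mod_cast Fintype.card_pos
  have h1 : ∀ G : SimpleGraph (Fin n), rspN (plant G S) S d n univ =
      (∑ ω : Om n, (if SuccN (rl ω) (plant G S) S d then (1 : ℝ) else 0)) /
        (Fintype.card (Om n) : ℝ) := by
    intro G
    rw [eq_div_iff hOm.ne', mul_comm, ← sum_dspN]
    refine sum_congr rfl fun ω _ => ?_
    have := dspN_eq (rl ω) (rl_rule ω) (plant G S) S d n 0 (by omega) hn (by omega)
    exact this
  rw [Ex_congr h1]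
  have h2 : Ex (fun G : SimpleGraph (Fin n) =>
      (∑ ω : Om n, (if SuccN (rl ω) (plant G S) S d then (1 : ℝ) else 0)) /
        (Fintype.card (Om n) : ℝ)) =
      (∑ ω : Om n, Pr (fun G => SuccN (rl ω) (plant G S) S d)) / (Fintype.card (Om n) : ℝ) := by
    have : ∀ G : SimpleGraph (Fin n),
        (∑ ω : Om n, (if SuccN (rl ω) (plant G S) S d then (1 : ℝ) else 0)) /
        (Fintype.card (Om n) : ℝ) =
        (∑ ω : Om n, (if SuccN (rl ω) (plant G S) S d then (1 : ℝ) else 0)) *
        (Fintype.card (Om n) : ℝ)⁻¹ := fun G => div_eq_mul_inv _ _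
    rw [Ex_congr this, Ex_mul_right, div_eq_mul_inv, Ex_sum]
    rfl
  rw [h2, le_div_iff₀ hOm]
  calc c * (Fintype.card (Om n) : ℝ) = ∑ _ω : Om n, c := by
        rw [sum_const, card_univ, nsmul_eq_mul, mul_comm]
    _ ≤ _ := sum_le_sum fun ω _ => hc (rl ω) (rl_rule ω)

end

end Pool.Agent.H12.PK
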